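import Mathlib
import Pool.Agent.Helper239.ApDefs
import Pool.Agent.Helper239.ApI

open MeasureTheory
open Pool.Agent.Helper239.ApDefs

universe w

/-- There are a locally compact group `G` and a Segal algebra `A` on `G`, not all of `L¹(G)`, which
is approximately amenable. -/
theorem Pool.Agent.Results.MP_d84e7d_an.ApproxAmenableSegal.result :
    ∃ (G : Type) (_ : Group G) (_ : TopologicalSpace G) (_ : IsTopologicalGroup G)
      (_ : T2Space G) (_ : LocallyCompactSpace G) (_ : MeasurableSpace G) (_ : BorelSpace G)
      (μ : Measure G) (_ : μ.IsHaarMeasure) (_ : μ.Regular)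
      (A : Type) (_ : NonUnitalNormedRing A) (_ : NormedSpace ℂ A) (_ : IsScalarTower ℂ A A)
      (_ : SMulCommClass ℂ A A) (ι : A →ₗ[ℂ] Lp ℂ 1 μ),
      IsSegalAlgebra μ A ι ∧ ¬ Function.Surjective ι ∧ IsApproxAmenable.{0, w} A :=
  ⟨Pool.Agent.Helper239.ApB.GG, inferInstance, inferInstance, inferInstance, inferInstance,
    inferInstance, inferInstance, inferInstance, Pool.Agent.Helper239.ApB.mu, inferInstance,
    inferInstance, Pool.Agent.Helper239.ApE.SS, inferInstance, inferInstance, inferInstance,
    inferInstance, Pool.Agent.Helper239.ApE.inc, Pool.Agent.Helper239.ApF.isSegal,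
    Pool.Agent.Helper239.ApF.not_surjective, Pool.Agent.Helper239.ApI.isApproxAmenable⟩
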